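import Mathlib

set_option autoImplicit false

/-!
Full and reduced norms of `L^p` crossed products by finite groups.
-/

namespace Pool.Agent.Lib.MP_579095_an

open MeasureTheory
open scoped ENNReal

universe u v w

/-- An isometric action of the group `G` on the Banach algebra `A`: a homomorphism from `G` to the
isometric, multiplicative, linear bijections of `A`. -/
structure IsometricAction (G : Type v) (A : Type w) [Group G] [NonUnitalNormedRing A]
    [NormedSpace ℂ A] where
  /-- the action -/
  act : G → A → A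
  act_one : ∀ a, act 1 a = a
  act_mul : ∀ g h a, act (g * h) a = act g (act h a)
  act_add : ∀ g a b, act g (a + b) = act g a + act g b
  act_smul : ∀ g (c : ℂ) a, act g (c • a) = c • act g a
  act_map_mul : ∀ g a b, act g (a * b) = act g a * act g b
  norm_act : ∀ g a, ‖act g a‖ = ‖a‖

/-- A nondegenerate contractive representation of `A` on the Banach space `E`: a contractive
algebra homomorphism `π` from `A` to the bounded operators on `E` such that the span of the
vectors `π(a)ξ` is dense. -/
structure NondegRep (A : Type w) (E : Type u) [NonUnitalNormedRing A] [NormedSpace ℂ A]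
    [NormedAddCommGroup E] [NormedSpace ℂ E] where
  /-- the representation -/
  π : A → E →L[ℂ] E
  map_add : ∀ a b, π (a + b) = π a + π b
  map_smul : ∀ (c : ℂ) a, π (c • a) = c • π a
  map_mul : ∀ a b ξ, π (a * b) ξ = π a (π b ξ)
  contractive : ∀ a, ‖π a‖ ≤ ‖a‖
  nondeg : Dense (Submodule.span ℂ {η : E | ∃ a ξ, π a ξ = η} : Set E)

/-- A nondegenerate contractive covariant representation `(v, π)` of `(G, A, α)` on the Banach
space `E`: `v` is a homomorphism from `G` to the invertible isometries of `E` and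
`v_g π(a) = π(α_g(a)) v_g`. -/
structure CovRep {G : Type v} {A : Type w} [Group G] [NonUnitalNormedRing A] [NormedSpace ℂ A]
    (α : IsometricAction G A) (E : Type u) [NormedAddCommGroup E] [NormedSpace ℂ E] where
  /-- the representation of the algebra -/
  rep : NondegRep A E
  /-- the representation of the group -/
  v : G → E →L[ℂ] E
  v_one : ∀ ξ, v 1 ξ = ξ
  v_mul : ∀ g h ξ, v (g * h) ξ = v g (v h ξ)
  v_norm : ∀ g ξ, ‖v g ξ‖ = ‖ξ‖
  cov : ∀ g a ξ, v g (rep.π a ξ) = rep.π (α.act g a) (v g ξ)

variable {G : Type v} {A : Type w}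

/-- The integrated form `∑_g π(a(g)) v_g` of a pair `(v, π)` of families of maps of `E`. -/
def intForm [Fintype G] {E : Type u} [AddCommMonoid E] (π : A → E → E) (v : G → E → E)
    (a : G → A) (ξ : E) : E :=
  ∑ g, π (a g) (v g ξ)

/-- The operator norm of a map `T` of `E`: the supremum of `‖T ξ‖` over `‖ξ‖ ≤ 1`. -/
noncomputable def opN {E : Type u} [NormedAddCommGroup E] (T : E → E) : ℝ≥0∞ :=
  ⨆ (ξ : E) (_ : ‖ξ‖ ≤ 1), ‖T ξ‖ₑ

variable [Group G] [NonUnitalNormedRing A] [NormedSpace ℂ A]

/-- `(π(a)ξ)(h) = π₀(α_{h⁻¹}(a)) ξ(h)` on `ℓ^p(G, E)`. -/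
def regPi (α : IsometricAction G A) (p : ℝ≥0∞) {E : Type u} [NormedAddCommGroup E]
    [NormedSpace ℂ E] (π₀ : NondegRep A E) (a : A) (ξ : PiLp p fun _ : G => E) :
    PiLp p fun _ : G => E :=
  WithLp.toLp p fun h => π₀.π (α.act h⁻¹ a) (ξ h)

/-- `(v_g ξ)(h) = ξ(g⁻¹h)` on `ℓ^p(G, E)`. -/
def regV (p : ℝ≥0∞) {E : Type u} (g : G) (ξ : PiLp p fun _ : G => E) : PiLp p fun _ : G => E :=
  WithLp.toLp p fun h => ξ (g⁻¹ * h)

/-- The supremum of `‖(v ⋉ π)(a)‖` over all nondegenerate contractive covariant representations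
on the Banach space `E`. -/
noncomputable def fullNormOn [Fintype G] (α : IsometricAction G A) (E : Type u)
    [NormedAddCommGroup E] [NormedSpace ℂ E] (a : G → A) : ℝ≥0∞ :=
  ⨆ R : CovRep α E, opN (intForm (fun b ξ => R.rep.π b ξ) (fun g ξ => R.v g ξ) a)

/-- The supremum of `‖(v ⋉ π)(a)‖` over the regular covariant representations on `ℓ^p(G, E)`
associated with nondegenerate contractive representations of `A` on the Banach space `E`. -/
noncomputable def regularNormOn [Fintype G] (α : IsometricAction G A) (p : ℝ≥0∞) [Fact (1 ≤ p)]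
    (E : Type u) [NormedAddCommGroup E] [NormedSpace ℂ E] (a : G → A) : ℝ≥0∞ :=
  ⨆ π₀ : NondegRep A E, opN (intForm (regPi α p π₀) (regV p) a)

/-- The full norm on `C(G, A, α)`: the supremum of `‖(v ⋉ π)(a)‖` over all nondegenerate
contractive covariant representations on `L^p(X, μ)`, `μ` `σ`-finite. -/
noncomputable def fullNorm [Fintype G] (α : IsometricAction G A) (p : ℝ≥0∞) [Fact (1 ≤ p)]
    (a : G → A) : ℝ≥0∞ :=
  ⨆ (X : Type u) (_ : MeasurableSpace X) (μ : Measure X) (_ : SigmaFinite μ),
    fullNormOn α (Lp ℂ p μ) a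

/-- The reduced norm on `C(G, A, α)`: the supremum of `‖(v ⋉ π)(a)‖` over the regular covariant
representations associated with nondegenerate contractive representations of `A` on `L^p(X, μ)`,
`μ` `σ`-finite. -/
noncomputable def reducedNorm [Fintype G] (α : IsometricAction G A) (p : ℝ≥0∞) [Fact (1 ≤ p)]
    (a : G → A) : ℝ≥0∞ :=
  ⨆ (X : Type u) (_ : MeasurableSpace X) (μ : Measure X) (_ : SigmaFinite μ),
    regularNormOn α p (Lp ℂ p μ) a

end Pool.Agent.Lib.MP_579095_an
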