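import Pool.Agent.Lib.MP_579095_an.Regular

set_option autoImplicit false

namespace Pool.Agent.Lib.MP_579095_an

open MeasureTheory
open scoped ENNReal

universe u v w

variable {G : Type v} {A : Type w} [Group G] [NonUnitalNormedRing A] [NormedSpace ℂ A] [Fintype G]

theorem norm_const_entries (p : ℝ≥0∞) [Fact (1 ≤ p)] (E : Type u) [NormedAddCommGroup E]
    (G : Type v) [Fintype G] [Nonempty G] :
    ∃ K : ℝ, 0 < K ∧ ∀ (ξ : PiLp p fun _ : G => E) (r : ℝ), 0 ≤ r → (∀ h, ‖ξ h‖ = r) →
      ‖ξ‖ = K * r := by
  rcases p.dichotomy with hp | hp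
  · subst hp
    refine ⟨1, one_pos, fun ξ r _ h => ?_⟩
    rw [PiLp.norm_eq_ciSup, one_mul]
    simp [h]
  · have hp0 : 0 < p.toReal := zero_lt_one.trans_le hp
    refine ⟨(Fintype.card G : ℝ) ^ (1 / p.toReal), ?_, fun ξ r hr h => ?_⟩
    · have : (0 : ℝ) < Fintype.card G := by exact_mod_cast Fintype.card_pos
      positivity
    · rw [PiLp.norm_eq_sum hp0]
      simp only [h, Finset.sum_const, Finset.card_univ, nsmul_eq_mul]
      rw [Real.mul_rpow (by positivity) (by positivity), ← Real.rpow_mul hr,
        mul_one_div_cancel hp0.ne', Real.rpow_one]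

variable {α : IsometricAction G A} (p : ℝ≥0∞) [Fact (1 ≤ p)] {E : Type u}
  [NormedAddCommGroup E] [NormedSpace ℂ E]

/-- the vector `h ↦ v_h⁻¹ η` of `ℓ^p(G, E)` -/
noncomputable def orb (R : CovRep α E) (η : E) : PiLp p fun _ : G => E :=
  WithLp.toLp p fun h => R.v h⁻¹ η

omit [Fintype G] [Fact (1 ≤ p)] in
theorem orb_apply (R : CovRep α E) (η : E) (h : G) : orb p R η h = R.v h⁻¹ η := rfl

theorem integrated_apply (R : CovRep α E) (a : G → A) (η : E) :
    R.integrated a η = ∑ g, R.rep.π (a g) (R.v g η) := by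
  unfold CovRep.integrated
  rw [sum_apply]
  rfl

theorem regular_orb (R : CovRep α E) (a : G → A) (η : E) :
    (regular α p R.rep).integrated a (orb p R η) = orb p R (R.integrated a η) := by
  refine PiLp.ext fun h => ?_
  rw [integrated_apply, integrated_apply, WithLp.ofLp_sum, Finset.sum_apply, orb_apply, map_sum]
  refine Finset.sum_congr rfl fun g _ => ?_
  change R.rep.π (α.act h⁻¹ (a g)) (R.v (g⁻¹ * h)⁻¹ η) = R.v h⁻¹ (R.rep.π (a g) (R.v g η))
  rw [R.cov, mul_inv_rev, inv_inv, R.v_mul]

theorem norm_integrated_le_regular (R : CovRep α E) (a : G → A) :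
    ‖R.integrated a‖ ≤ ‖(regular α p R.rep).integrated a‖ := by
  obtain ⟨K, hK, hn⟩ := norm_const_entries p E G
  have horb : ∀ η : E, ‖orb p R η‖ = K * ‖η‖ := fun η =>
    hn _ _ (norm_nonneg η) fun h => by rw [orb_apply, R.v_norm]
  refine ContinuousLinearMap.opNorm_le_bound _ (norm_nonneg _) fun η => ?_
  have h1 := ContinuousLinearMap.le_opNorm ((regular α p R.rep).integrated a) (orb p R η)
  rw [regular_orb, horb, horb] at h1
  have h2 : K * ‖R.integrated a η‖ ≤ K * (‖(regular α p R.rep).integrated a‖ * ‖η‖) := by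
    linarith
  exact le_of_mul_le_mul_left h2 hK

/-- transport of a covariant representation along an isometric isomorphism -/
noncomputable def CovRep.conj {E' : Type*} [NormedAddCommGroup E'] [NormedSpace ℂ E']
    (R : CovRep α E) (e : E ≃ₗᵢ[ℂ] E') : CovRep α E' where
  rep :=
    { π := fun a => ((e.toContinuousLinearEquiv : E →L[ℂ] E').comp (R.rep.π a)).comp
        (e.symm.toContinuousLinearEquiv : E' →L[ℂ] E)
      map_smul := fun c a => by
        refine ContinuousLinearMap.ext fun ξ => ?_
        simp [R.rep.map_smul]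
      map_add := fun a b => by
        refine ContinuousLinearMap.ext fun ξ => ?_
        simp [R.rep.map_add]
      map_mul := fun a b ξ => by
        simp [R.rep.map_mul]
      contractive := fun a => by
        refine ContinuousLinearMap.opNorm_le_bound _ (norm_nonneg _) fun ξ => ?_
        change ‖e (R.rep.π a (e.symm ξ))‖ ≤ _
        rw [e.norm_map]
        refine (ContinuousLinearMap.le_opNorm _ _).trans ?_
        rw [e.symm.norm_map]
        exact mul_le_mul_of_nonneg_right (R.rep.contractive a) (norm_nonneg _)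
      nondeg := by
        have h := R.rep.nondeg
        have h2 := e.surjective.denseRange.dense_image e.continuous h
        refine h2.mono ?_
        rintro _ ⟨x, hx, rfl⟩
        refine Submodule.span_induction (p := fun x _ => e x ∈ _) ?_ ?_ ?_ ?_ hx
        · rintro _ ⟨a, ξ, rfl⟩
          apply Submodule.subset_span
          refine ⟨a, e ξ, ?_⟩
          change e (R.rep.π a (e.symm (e ξ))) = _
          rw [e.symm_apply_apply]
        · simp
        · intro x y _ _ hx hy
          rw [_root_.map_add]; exact add_mem hx hy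
        · intro c x _ hx
          rw [_root_.map_smul]; exact Submodule.smul_mem _ _ hx }
  v g := ((e.toContinuousLinearEquiv : E →L[ℂ] E').comp (R.v g)).comp
        (e.symm.toContinuousLinearEquiv : E' →L[ℂ] E)
  v_one ξ := by
    simp [R.v_one]
  v_mul g k ξ := by
    simp [R.v_mul]
  v_norm g ξ := by
    change ‖e (R.v g (e.symm ξ))‖ = _
    rw [e.norm_map, R.v_norm, e.symm.norm_map]
  cov g a ξ := by
    change e (R.v g (e.symm (e (R.rep.π a (e.symm ξ))))) =
      e (R.rep.π (α.act g a) (e.symm (e (R.v g (e.symm ξ)))))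
    rw [e.symm_apply_apply, e.symm_apply_apply, R.cov]

theorem conj_integrated_norm {E' : Type*} [NormedAddCommGroup E'] [NormedSpace ℂ E']
    (R : CovRep α E) (e : E ≃ₗᵢ[ℂ] E') (a : G → A) :
    ‖R.integrated a‖ ≤ ‖(R.conj e).integrated a‖ := by
  refine ContinuousLinearMap.opNorm_le_bound _ (norm_nonneg _) fun η => ?_
  have h : (R.conj e).integrated a (e η) = e (R.integrated a η) := by
    rw [integrated_apply, integrated_apply, map_sum]
    refine Finset.sum_congr rfl fun g _ => ?_
    change e (R.rep.π (a g) (e.symm (e (R.v g (e.symm (e η)))))) = _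
    rw [e.symm_apply_apply, e.symm_apply_apply]
  have h1 := ContinuousLinearMap.le_opNorm ((R.conj e).integrated a) (e η)
  rw [h, e.norm_map, e.norm_map] at h1
  exact h1

theorem opN_eq (T : E →L[ℂ] E) : opN (fun ξ => T ξ) = ‖T‖ₑ := by
  apply le_antisymm
  · unfold opN
    refine iSup_le fun ξ => iSup_le fun hξ => ?_
    rw [enorm_le_iff_norm_le]
    exact T.unit_le_opNorm ξ hξ
  · by_cases htop : opN (fun ξ => T ξ) = ∞
    · rw [htop]; exact le_top
    · have h1 : ‖T‖ ≤ (opN (fun ξ => T ξ)).toReal := by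
        refine ContinuousLinearMap.opNorm_le_of_unit_norm ENNReal.toReal_nonneg fun ξ hξ => ?_
        rw [← toReal_enorm]
        apply ENNReal.toReal_mono htop
        exact le_iSup_of_le ξ (le_iSup_of_le hξ.le le_rfl)
      rw [← ofReal_norm]
      exact ENNReal.ofReal_le_of_le_toReal h1

theorem opN_integrated (R : CovRep α E) (a : G → A) :
    opN (intForm (fun b ξ => R.rep.π b ξ) (fun g ξ => R.v g ξ) a) = ‖R.integrated a‖ₑ := by
  rw [← opN_eq]
  congr 1
  funext ξ
  exact (integrated_apply R a ξ).symm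

theorem opN_regular (π₀ : NondegRep A E) (a : G → A) :
    opN (intForm (regPi α p π₀) (regV p) a) = ‖(regular α p π₀).integrated a‖ₑ := by
  rw [← opN_integrated]
  rfl

end Pool.Agent.Lib.MP_579095_an
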