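import Mathlib

set_option autoImplicit false

namespace Pool.Agent.Lib.MP_579095_an

open MeasureTheory Filter
open scoped ENNReal

universe u

variable {ι : Type} [Fintype ι] [MeasurableSpace ι] [MeasurableSingletonClass ι]
  {X : Type u} [MeasurableSpace X]

/-- the sum of copies of `μ` on `ι × X` -/
noncomputable def copies (ι : Type) [Fintype ι] [MeasurableSpace ι] (μ : Measure X) :
    Measure (ι × X) := Measure.sum fun i : ι => μ.map (Prod.mk i)

omit [Fintype ι] in
theorem emb (i : ι) : MeasurableEmbedding (Prod.mk i : X → ι × X) := measurableEmbedding_prodMk_left i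

instance copies_sigmaFinite (μ : Measure X) [SigmaFinite μ] : SigmaFinite (copies ι μ) := by
  have : ∀ i : ι, SigmaFinite (μ.map (Prod.mk i)) := fun i => (emb i).sigmaFinite_map
  unfold copies
  infer_instance

theorem ae_copies {μ : Measure X} {P : ι × X → Prop} :
    (∀ᵐ z ∂(copies ι μ), P z) ↔ ∀ i, ∀ᵐ x ∂μ, P (i, x) := by
  unfold copies
  rw [Measure.ae_sum_iff]
  exact forall_congr' fun i => (emb i).ae_map_iff

theorem lintegral_copies {μ : Measure X} (f : ι × X → ℝ≥0∞) :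
    ∫⁻ z, f z ∂(copies ι μ) = ∑ i, ∫⁻ x, f (i, x) ∂μ := by
  unfold copies
  rw [lintegral_sum_measure, tsum_fintype]
  exact Finset.sum_congr rfl fun i _ => (emb i).lintegral_map _

variable {p : ℝ≥0∞} [Fact (1 ≤ p)]

/-- glue a family of functions -/
noncomputable def glue {μ : Measure X} (ξ : PiLp p fun _ : ι => Lp ℂ p μ) : ι × X → ℂ :=
  fun z => (ξ z.1 : X → ℂ) z.2

omit [Fact (1 ≤ p)] in
theorem glue_sm {μ : Measure X} (ξ : PiLp p fun _ : ι => Lp ℂ p μ) : StronglyMeasurable (glue ξ) := by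
  have h : Measurable (glue ξ) := by
    refine measurable_from_prod_countable_right fun i => ?_
    exact (Lp.stronglyMeasurable (ξ i)).measurable
  exact h.stronglyMeasurable

theorem glue_eLpNorm (hp : p ≠ ∞) {μ : Measure X} (ξ : PiLp p fun _ : ι => Lp ℂ p μ) :
    eLpNorm (glue ξ) p (copies ι μ) = (∑ i, ‖ξ i‖ₑ ^ p.toReal) ^ (1 / p.toReal) := by
  have hp1 : 1 ≤ p := Fact.out
  have hp0 : p ≠ 0 := (zero_lt_one.trans_le hp1).ne'
  have hpr : 0 < p.toReal := ENNReal.toReal_pos hp0 hp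
  rw [eLpNorm_eq_lintegral_rpow_enorm_toReal hp0 hp, lintegral_copies]
  congr 1
  refine Finset.sum_congr rfl fun i _ => ?_
  rw [Lp.enorm_def, eLpNorm_eq_lintegral_rpow_enorm_toReal hp0 hp, ← ENNReal.rpow_mul,
    one_div_mul_cancel hpr.ne', ENNReal.rpow_one]
  rfl

theorem glue_memLp (hp : p ≠ ∞) {μ : Measure X} (ξ : PiLp p fun _ : ι => Lp ℂ p μ) :
    MemLp (glue ξ) p (copies ι μ) := by
  refine ⟨(glue_sm ξ).aestronglyMeasurable, ?_⟩
  rw [glue_eLpNorm hp]
  have hpr : 0 ≤ p.toReal := ENNReal.toReal_nonneg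
  refine ENNReal.rpow_lt_top_of_nonneg (by positivity) ?_
  refine (ENNReal.sum_lt_top.mpr fun i _ => ?_).ne
  exact ENNReal.rpow_lt_top_of_nonneg hpr (by simp)

/-- gluing as a linear isometry -/
noncomputable def glueLI (hp : p ≠ ∞) (μ : Measure X) :
    (PiLp p fun _ : ι => Lp ℂ p μ) →ₗᵢ[ℂ] Lp ℂ p (copies ι μ) where
  toFun ξ := (glue_memLp hp ξ).toLp (glue ξ)
  map_add' ξ η := by
    rw [← MemLp.toLp_add]
    apply MemLp.toLp_congr
    refine ae_copies.mpr fun i => ?_
    exact Lp.coeFn_add (ξ i) (η i)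
  map_smul' c ξ := by
    simp only [RingHom.id_apply]
    rw [← MemLp.toLp_const_smul]
    apply MemLp.toLp_congr
    refine ae_copies.mpr fun i => ?_
    exact Lp.coeFn_smul c (ξ i)
  norm_map' ξ := by
    change ‖(glue_memLp hp ξ).toLp (glue ξ)‖ = ‖ξ‖
    have hp1 : 1 ≤ p := Fact.out
    have hp0 : p ≠ 0 := (zero_lt_one.trans_le hp1).ne'
    have hpr : 0 < p.toReal := ENNReal.toReal_pos hp0 hp
    rw [Lp.norm_toLp, glue_eLpNorm hp, PiLp.norm_eq_sum hpr, ← ENNReal.toReal_rpow,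
      ENNReal.toReal_sum]
    · congr 1
      refine Finset.sum_congr rfl fun i _ => ?_
      rw [← ENNReal.toReal_rpow, toReal_enorm]
    · intro i _
      exact (ENNReal.rpow_lt_top_of_nonneg hpr.le (by simp)).ne

theorem glueLI_surjective (hp : p ≠ ∞) (μ : Measure X) :
    Function.Surjective (glueLI (ι := ι) hp μ) := by
  intro φ
  have hmem : ∀ i : ι, MemLp (fun x => φ (i, x)) p μ := by
    intro i
    have h1 : MemLp φ p (μ.map (Prod.mk i)) := by
      refine (Lp.memLp φ).mono_measure ?_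
      exact Measure.le_sum (fun i : ι => μ.map (Prod.mk i)) i
    exact ((emb i).memLp_map_measure_iff).mp h1
  refine ⟨WithLp.toLp p fun i => (hmem i).toLp _, ?_⟩
  have h2 : glueLI (ι := ι) hp μ (WithLp.toLp p fun i => (hmem i).toLp _) = (Lp.memLp φ).toLp φ := by
    refine MemLp.toLp_congr (glue_memLp hp _) (Lp.memLp φ) ?_
    refine ae_copies.mpr fun i => ?_
    exact MemLp.coeFn_toLp (hmem i)
  rw [h2, Lp.toLp_coeFn]

/-- `ℓ^p(ι, L^p(μ))` is isometrically isomorphic to `L^p(ι × X)` -/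
noncomputable def glueEquiv (hp : p ≠ ∞) (μ : Measure X) :
    (PiLp p fun _ : ι => Lp ℂ p μ) ≃ₗᵢ[ℂ] Lp ℂ p (copies ι μ) :=
  LinearIsometryEquiv.ofSurjective (glueLI hp μ) (glueLI_surjective hp μ)

end Pool.Agent.Lib.MP_579095_an
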