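import Pool.Agent.Lib.MP_579095_an.Defs

set_option autoImplicit false

namespace Pool.Agent.Lib.MP_579095_an

open MeasureTheory
open scoped ENNReal

universe u v w

variable {G : Type v} {A : Type w} [Group G] [NonUnitalNormedRing A] [NormedSpace ℂ A]

/-- The integrated form `(v ⋉ π)(a) = ∑_g π(a(g)) v_g` as a bounded operator. -/
noncomputable def CovRep.integrated [Fintype G] {α : IsometricAction G A} {E : Type u}
    [NormedAddCommGroup E] [NormedSpace ℂ E] (R : CovRep α E) (a : G → A) : E →L[ℂ] E :=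
  ∑ g, (R.rep.π (a g)).comp (R.v g)

/-- norm comparison in `ℓ^p(G, E)` -/
theorem piLp_norm_le {ι : Type v} [Fintype ι] {E : Type u} [NormedAddCommGroup E] {p : ℝ≥0∞}
    [Fact (1 ≤ p)] {C : ℝ} (hC : 0 ≤ C) (x y : PiLp p fun _ : ι => E) (h : ∀ i, ‖x i‖ ≤ C * ‖y i‖) :
    ‖x‖ ≤ C * ‖y‖ := by
  rcases p.dichotomy with hp | hp
  · subst hp
    rw [PiLp.norm_eq_ciSup, PiLp.norm_eq_ciSup]
    rcases isEmpty_or_nonempty ι with he | hne
    · simp
    · refine ciSup_le fun i => (h i).trans (mul_le_mul_of_nonneg_left ?_ hC)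
      exact le_ciSup (f := fun i => ‖y i‖) (Finite.bddAbove_range _) i
  · have hp0 : 0 < p.toReal := zero_lt_one.trans_le hp
    rw [PiLp.norm_eq_sum hp0, PiLp.norm_eq_sum hp0]
    have h1 : ∑ i, ‖x i‖ ^ p.toReal ≤ C ^ p.toReal * ∑ i, ‖y i‖ ^ p.toReal := by
      rw [Finset.mul_sum]
      refine Finset.sum_le_sum fun i _ => ?_
      rw [← Real.mul_rpow hC (norm_nonneg _)]
      exact Real.rpow_le_rpow (norm_nonneg _) (h i) hp0.le
    have h2 : 0 ≤ ∑ i, ‖y i‖ ^ p.toReal :=
      Finset.sum_nonneg fun i _ => Real.rpow_nonneg (norm_nonneg _) _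
    calc (∑ i, ‖x i‖ ^ p.toReal) ^ (1 / p.toReal)
        ≤ (C ^ p.toReal * ∑ i, ‖y i‖ ^ p.toReal) ^ (1 / p.toReal) := by
          refine Real.rpow_le_rpow ?_ h1 (by positivity)
          exact Finset.sum_nonneg fun i _ => Real.rpow_nonneg (norm_nonneg _) _
      _ = C * (∑ i, ‖y i‖ ^ p.toReal) ^ (1 / p.toReal) := by
          rw [Real.mul_rpow (Real.rpow_nonneg hC _) h2, ← Real.rpow_mul hC,
            mul_one_div_cancel hp0.ne', Real.rpow_one]

section Regular

variable [Fintype G] (α : IsometricAction G A) (p : ℝ≥0∞) [Fact (1 ≤ p)] {E : Type u}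
  [NormedAddCommGroup E] [NormedSpace ℂ E]

/-- `(π(a)ξ)(h) = π₀(α_{h⁻¹}(a)) ξ(h)` on `ℓ^p(G, E)`. -/
noncomputable def regOp (π₀ : NondegRep A E) (a : A) :
    (PiLp p fun _ : G => E) →L[ℂ] (PiLp p fun _ : G => E) :=
  LinearMap.mkContinuous
    { toFun := regPi α p π₀ a
      map_add' := fun ξ η => by
        refine PiLp.ext fun h => ?_
        simp [map_add, regPi]
      map_smul' := fun c ξ => by
        refine PiLp.ext fun h => ?_
        simp [map_smul, regPi] }
    ‖a‖ (fun ξ => by
      refine piLp_norm_le (norm_nonneg a) _ _ fun h => ?_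
      refine (ContinuousLinearMap.le_opNorm _ _).trans ?_
      refine mul_le_mul_of_nonneg_right ?_ (norm_nonneg _)
      exact (π₀.contractive _).trans (α.norm_act _ _).le)

@[simp] theorem regOp_apply (π₀ : NondegRep A E) (a : A) (ξ : PiLp p fun _ : G => E) (h : G) :
    regOp α p π₀ a ξ h = π₀.π (α.act h⁻¹ a) (ξ h) := rfl

theorem regOp_norm (π₀ : NondegRep A E) (a : A) : ‖regOp α p π₀ a‖ ≤ ‖a‖ :=
  LinearMap.mkContinuous_norm_le _ (norm_nonneg a) _

/-- the translation `(v_g ξ)(h) = ξ(g⁻¹h)` of `ℓ^p(G, E)` -/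
noncomputable def shift (p : ℝ≥0∞) [Fact (1 ≤ p)] (E : Type u) [NormedAddCommGroup E]
    [NormedSpace ℂ E] (g : G) : (PiLp p fun _ : G => E) ≃ₗᵢ[ℂ] (PiLp p fun _ : G => E) :=
  LinearIsometryEquiv.piLpCongrLeft p ℂ E (Equiv.mulLeft g)

@[simp] theorem shift_apply (g : G) (ξ : PiLp p fun _ : G => E) (h : G) :
    shift p E g ξ h = ξ (g⁻¹ * h) := rfl

/-- the translation as a bounded operator -/
noncomputable def shiftL (p : ℝ≥0∞) [Fact (1 ≤ p)] (E : Type u) [NormedAddCommGroup E]
    [NormedSpace ℂ E] (g : G) : (PiLp p fun _ : G => E) →L[ℂ] (PiLp p fun _ : G => E) :=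
  (shift p E g).toContinuousLinearEquiv.toContinuousLinearMap

@[simp] theorem shiftL_apply (g : G) (ξ : PiLp p fun _ : G => E) (h : G) :
    shiftL p E g ξ h = ξ (g⁻¹ * h) := rfl

theorem shiftL_norm (g : G) (ξ : PiLp p fun _ : G => E) : ‖shiftL p E g ξ‖ = ‖ξ‖ :=
  LinearIsometryEquiv.norm_map (shift p E g) ξ

omit [Fintype G] in
theorem act_inv_act (g : G) (a : A) : α.act g⁻¹ (α.act g a) = a := by
  rw [← α.act_mul, inv_mul_cancel, α.act_one]

/-- the vector with a single entry -/
noncomputable def sg (p : ℝ≥0∞) (h : G) (η : E) : PiLp p fun _ : G => E :=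
  open Classical in WithLp.toLp p fun k => if k = h then η else 0

open Classical in
omit [Fintype G] [NormedSpace ℂ E] [Group G] [Fact (1 ≤ p)] in
theorem sg_apply (h : G) (η : E) (k : G) : sg p h η k = if k = h then η else 0 := rfl

omit [Group G] [Fintype G] [Fact (1 ≤ p)] [NormedSpace ℂ E] in
theorem sg_continuous (h : G) : Continuous (sg p h : E → PiLp p fun _ : G => E) := by
  classical
  refine (PiLp.continuous_toLp p _).comp (continuous_pi fun k => ?_)
  by_cases hk : k = h
  · simp only [hk, if_true]; exact continuous_id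
  · simp only [hk, if_false]; exact continuous_const

theorem regular_nondeg (π₀ : NondegRep A E) :
    Dense ((Submodule.span ℂ {η : PiLp p fun _ : G => E | ∃ a ξ, regOp α p π₀ a ξ = η} :
      Submodule ℂ (PiLp p fun _ : G => E)) : Set (PiLp p fun _ : G => E)) := by
  classical
  set S : Submodule ℂ (PiLp p fun _ : G => E) :=
    Submodule.span ℂ {η : PiLp p fun _ : G => E | ∃ a ξ, regOp α p π₀ a ξ = η} with hS
  rw [Submodule.dense_iff_topologicalClosure_eq_top, Submodule.eq_top_iff']
  have hsingle : ∀ (h : G) (η : E), sg p h η ∈ S.topologicalClosure := by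
    intro h
    have hclosed : IsClosed {η : E | sg p h η ∈ S.topologicalClosure} :=
      S.isClosed_topologicalClosure.preimage (sg_continuous p h)
    have hsub : ((Submodule.span ℂ {η : E | ∃ a ξ, π₀.π a ξ = η} : Submodule ℂ E) : Set E) ⊆
        {η : E | sg p h η ∈ S.topologicalClosure} := by
      intro η hη
      refine Submodule.span_induction ?_ ?_ ?_ ?_ hη
      · rintro _ ⟨a, ξ, rfl⟩
        apply Submodule.le_topologicalClosure
        apply Submodule.subset_span
        refine ⟨α.act h a, sg p h ξ, ?_⟩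
        refine PiLp.ext fun k => ?_
        change π₀.π (α.act k⁻¹ (α.act h a)) (sg p h ξ k) = _
        rw [sg_apply, sg_apply]
        by_cases hk : k = h
        · subst hk
          rw [act_inv_act]
          simp
        · simp [hk]
      · have h0 : sg p h (0 : E) = 0 := by
          refine PiLp.ext fun k => ?_
          rw [sg_apply]; simp
        change sg p h (0 : E) ∈ S.topologicalClosure
        rw [h0]; exact zero_mem _
      · intro x y _ _ hx hy
        have h1 : sg p h (x + y) = sg p h x + sg p h y := by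
          refine PiLp.ext fun k => ?_
          rw [PiLp.add_apply, sg_apply, sg_apply, sg_apply]
          by_cases hk : k = h <;> simp [hk]
        change sg p h (x + y) ∈ S.topologicalClosure
        rw [h1]; exact add_mem hx hy
      · intro c x _ hx
        have h1 : sg p h (c • x) = c • sg p h x := by
          refine PiLp.ext fun k => ?_
          rw [PiLp.smul_apply, sg_apply, sg_apply]
          by_cases hk : k = h <;> simp [hk]
        change sg p h (c • x) ∈ S.topologicalClosure
        rw [h1]; exact Submodule.smul_mem _ _ hx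
    intro η
    have := closure_minimal hsub hclosed
    rw [π₀.nondeg.closure_eq] at this
    exact this (Set.mem_univ η)
  intro ξ
  have hξ : ξ = ∑ h : G, sg p h (ξ h) := by
    refine PiLp.ext fun k => ?_
    rw [WithLp.ofLp_sum, Finset.sum_apply]
    rw [Finset.sum_eq_single k]
    · rw [sg_apply]; simp
    · intro b _ hb
      rw [sg_apply]; simp [Ne.symm hb]
    · intro hk; exact absurd (Finset.mem_univ k) hk
  rw [hξ]
  exact Submodule.sum_mem _ fun h _ => hsingle h (ξ h)

/-- the regular covariant representation associated with `π₀`, on `ℓ^p(G, E)`: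
`(π(a)ξ)(h) = π₀(α_{h⁻¹}(a)) ξ(h)` and `(v_g ξ)(h) = ξ(g⁻¹h)`. -/
noncomputable def regular (π₀ : NondegRep A E) : CovRep α (PiLp p fun _ : G => E) where
  rep :=
    { π := regOp α p π₀
      map_smul := fun c a => by
        refine ContinuousLinearMap.ext fun ξ => PiLp.ext fun h => ?_
        simp [α.act_smul, π₀.map_smul]
      map_add := fun a b => by
        refine ContinuousLinearMap.ext fun ξ => PiLp.ext fun h => ?_
        simp [α.act_add, π₀.map_add]
      map_mul := fun a b ξ => by
        refine PiLp.ext fun h => ?_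
        simp [α.act_map_mul, π₀.map_mul]
      contractive := regOp_norm α p π₀
      nondeg := regular_nondeg α p π₀ }
  v := shiftL p E
  v_one ξ := by
    refine PiLp.ext fun h => ?_
    simp
  v_mul g k ξ := by
    refine PiLp.ext fun h => ?_
    simp [mul_assoc]
  v_norm := shiftL_norm p
  cov g a ξ := by
    refine PiLp.ext fun h => ?_
    change π₀.π (α.act (g⁻¹ * h)⁻¹ a) (ξ (g⁻¹ * h)) =
      π₀.π (α.act h⁻¹ (α.act g a)) (ξ (g⁻¹ * h))
    rw [← α.act_mul, mul_inv_rev, inv_inv]

end Regular

end Pool.Agent.Lib.MP_579095_an
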